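import Pool.Agent.Lib_helper25.ET.Base
import Pool.Agent.Lib_helper25.ET.FL
import Pool.Agent.Lib_helper42.ET.IV
import Pool.Agent.Lib_helper99.ET.M2

/-! Project ET, block M3. -/

set_option autoImplicit false

namespace Pool.Agent.ET

open MeasureTheory Filter Topology Set
open scoped ContDiff ENNReal

noncomputable section

variable {S : Torus}

theorem M3_meas (Φ : Flow S) (t : ℝ) :
    Measurable (fun v => ENNReal.ofReal (‖Φ.D t v‖ ^ 2)) := by
  have h := Φ.D_cont_v t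
  exact ENNReal.measurable_ofReal.comp ((h.norm.pow 2).measurable)

theorem M3_neg (Φ : Flow S) (t : ℝ) :
    ∫⁻ v in S.box, ENNReal.ofReal (‖Φ.D (-t) v‖ ^ 2) ∂S.m =
      ∫⁻ v in S.box, ENNReal.ofReal (‖Φ.D t v‖ ^ 2) ∂S.m := by
  rw [← lint_inv Φ (-t) (fun v => ENNReal.ofReal (‖Φ.D t v‖ ^ 2)) (M3_meas Φ t)
    ((Φ.D_inv t).comp fun z => ENNReal.ofReal (‖z‖ ^ 2))]
  refine lintegral_congr fun v => ?_
  have h := Φ.D_neg (-t) v
  rw [neg_neg] at h
  rw [h, norm_neg]

/-- M3: sublinear displacement, with the maximum over the times -/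
theorem disp_small (h : S.Ergodic) (Φ : Flow S) (ε : ℝ) (hε : 0 < ε) : ∃ T₀ > (0 : ℝ),
    ∀ T ≥ T₀, ∃ R : ℂ × ℝ → ℝ, Measurable R ∧ (∀ v, 0 ≤ R v) ∧
      (∀ v t, |t| ≤ T → ‖Φ.D t v‖ ≤ R v) ∧
      ∫⁻ v in S.box, ENNReal.ofReal (R v ^ 2) ∂S.m ≤ ENNReal.ofReal (ε * T ^ 2) := by
  obtain ⟨C, hC, hD⟩ := D_le Φ
  set μ : ℝ := (S.m S.box).toReal with hμ
  have hμ0 : 0 ≤ μ := ENNReal.toReal_nonneg
  have hμ' : S.m S.box = ENNReal.ofReal μ := (ENNReal.ofReal_toReal (box_fin S).ne).symm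
  obtain ⟨J, hJ1, hJ⟩ : ∃ J : ℕ, (1 : ℝ) ≤ J ∧ 16 * C ^ 2 * μ / ε ≤ (J : ℝ) ^ 2 := by
    have h1 := Nat.le_ceil (16 * C ^ 2 * μ / ε)
    have h2 : (0 : ℝ) ≤ (⌈16 * C ^ 2 * μ / ε⌉₊ : ℝ) := Nat.cast_nonneg _
    refine ⟨⌈16 * C ^ 2 * μ / ε⌉₊ + 1, ?_, ?_⟩
    · push_cast
      linarith
    · push_cast
      nlinarith
  set ε' : ℝ := ε / (16 * (J + 1)) with hε'
  have hε'0 : 0 < ε' := by positivity
  obtain ⟨N, hN⟩ := drift_zero h Φ ε' hε'0
  have hT1 : 0 ≤ 16 * (J + 1) * C ^ 2 * N ^ 2 * μ / ε := by positivity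
  refine ⟨J + 16 * (J + 1) * C ^ 2 * N ^ 2 * μ / ε, by positivity, fun T hT => ?_⟩
  have hTJ : (J : ℝ) ≤ T := by linarith
  have hT0 : 0 < T := by linarith
  have hTN : 16 * (J + 1) * C ^ 2 * N ^ 2 * μ / ε ≤ T ^ 2 := by nlinarith
  have hJ0 : (0 : ℝ) < J := by linarith
  -- the grid
  set n : ℕ → ℕ := fun j => ⌊(j : ℝ) * T / J⌋₊ with hn
  set c : ℝ := C * (T / J + 1) with hc
  have hc0 : 0 ≤ c := by positivity
  set Q : ℂ × ℝ → ℝ := fun v => ∑ j ∈ Finset.range (J + 1),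
    (‖Φ.D (n j) v‖ ^ 2 + ‖Φ.D (-(n j : ℝ)) v‖ ^ 2) with hQ
  have hQ0 : ∀ v, 0 ≤ Q v := fun v => Finset.sum_nonneg fun j _ => by positivity
  have hQm : Measurable Q := by
    refine Finset.measurable_sum _ fun j _ => ?_
    exact (((Φ.D_cont_v (n j)).norm.pow 2).add ((Φ.D_cont_v (-(n j : ℝ))).norm.pow 2)).measurable
  refine ⟨fun v => Real.sqrt (Q v) + c, ?_, fun v => by positivity, ?_, ?_⟩
  · exact (hQm.sqrt).add_const c
  · -- the bound
    intro v t ht
    -- grid time near `|t|`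
    set s : ℝ := |t| with hs
    have hs0 : 0 ≤ s := abs_nonneg t
    set j : ℕ := ⌊s * J / T⌋₊ with hj
    have hj1 : (j : ℝ) ≤ s * J / T := Nat.floor_le (by positivity)
    have hj2 : s * J / T < j + 1 := Nat.lt_floor_add_one _
    have hjJ : j ≤ J := by
      have : (j : ℝ) ≤ J := by
        refine hj1.trans ?_
        rw [div_le_iff₀ hT0]
        nlinarith
      exact_mod_cast this
    have h1 : (j : ℝ) * T / J ≤ s := by
      rw [div_le_iff₀ hJ0]
      rw [le_div_iff₀ hT0] at hj1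
      linarith
    have h2 : s < (j : ℝ) * T / J + T / J := by
      rw [← add_div, lt_div_iff₀ hJ0]
      rw [div_lt_iff₀ hT0] at hj2
      linarith
    have h3 : (n j : ℝ) ≤ (j : ℝ) * T / J := Nat.floor_le (by positivity)
    have h4 : (j : ℝ) * T / J < n j + 1 := Nat.lt_floor_add_one _
    have h5 : |s - n j| ≤ T / J + 1 := by
      rw [abs_le]
      constructor <;> nlinarith [div_pos hT0 hJ0]
    have hmem : j ∈ Finset.range (J + 1) := Finset.mem_range.2 (by omega)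
    have hterm : ‖Φ.D (n j) v‖ ^ 2 + ‖Φ.D (-(n j : ℝ)) v‖ ^ 2 ≤ Q v :=
      Finset.single_le_sum (f := fun j => ‖Φ.D (n j) v‖ ^ 2 + ‖Φ.D (-(n j : ℝ)) v‖ ^ 2)
        (fun i _ => by positivity) hmem
    have key : ∀ r : ℝ, ‖Φ.D r v‖ ^ 2 ≤ Q v → |t - r| ≤ T / J + 1 →
        ‖Φ.D t v‖ ≤ Real.sqrt (Q v) + c := by
      intro r hr htr
      have h6 : Φ.D t v = Φ.D (t - r) (Φ.φ r v) + Φ.D r v := by
        rw [Φ.D_sub]; ring
      rw [h6]
      refine (norm_add_le _ _).trans ?_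
      have h7 : ‖Φ.D r v‖ ≤ Real.sqrt (Q v) := by
        rw [← Real.sqrt_sq (norm_nonneg (Φ.D r v))]
        exact Real.sqrt_le_sqrt hr
      have h8 : ‖Φ.D (t - r) (Φ.φ r v)‖ ≤ c := by
        refine (hD _ _).trans ?_
        rw [hc]
        gcongr
      linarith
    rcases le_total 0 t with ht0 | ht0
    · refine key (n j) ?_ ?_
      · nlinarith [sq_nonneg ‖Φ.D (-(n j : ℝ)) v‖]
      · rwa [hs, abs_of_nonneg ht0] at h5
    · refine key (-(n j : ℝ)) ?_ ?_
      · nlinarith [sq_nonneg ‖Φ.D (n j) v‖]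
      · rw [hs, abs_of_nonpos ht0] at h5
        rw [← abs_neg]
        convert h5 using 2
        ring
  · -- the integral
    have hone : ∀ k : ℕ, (k : ℝ) ≤ T → ∫⁻ v in S.box, ENNReal.ofReal (‖Φ.D k v‖ ^ 2) ∂S.m ≤
        ENNReal.ofReal (ε' * T ^ 2 + C ^ 2 * N ^ 2 * μ) := by
      intro k hk
      rcases le_or_gt N k with h1 | h1
      · refine (hN k h1).trans (ENNReal.ofReal_le_ofReal ?_)
        have h2 : (k : ℝ) ^ 2 ≤ T ^ 2 := by
          have : (0 : ℝ) ≤ k := Nat.cast_nonneg k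
          nlinarith
        have h3 : 0 ≤ C ^ 2 * N ^ 2 * μ := by positivity
        nlinarith
      · have h2 : ∀ v, ENNReal.ofReal (‖Φ.D k v‖ ^ 2) ≤ ENNReal.ofReal (C ^ 2 * N ^ 2) := by
          intro v
          apply ENNReal.ofReal_le_ofReal
          have h3 := hD k v
          rw [abs_of_nonneg (Nat.cast_nonneg k)] at h3
          have h4 : (k : ℝ) ≤ N := by exact_mod_cast h1.le
          have h5 : ‖Φ.D k v‖ ≤ C * N := h3.trans (by gcongr)
          have h6 := norm_nonneg (Φ.D k v)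
          nlinarith
        calc ∫⁻ v in S.box, ENNReal.ofReal (‖Φ.D k v‖ ^ 2) ∂S.m
            ≤ ∫⁻ _ in S.box, ENNReal.ofReal (C ^ 2 * N ^ 2) ∂S.m := lintegral_mono h2
          _ = ENNReal.ofReal (C ^ 2 * N ^ 2 * μ) := by
              rw [setLIntegral_const, hμ', ← ENNReal.ofReal_mul (by positivity)]
          _ ≤ _ := ENNReal.ofReal_le_ofReal (by nlinarith [sq_nonneg T])
    have hpt : ∀ v, ENNReal.ofReal ((Real.sqrt (Q v) + c) ^ 2) ≤
        (∑ j ∈ Finset.range (J + 1), (2 * ENNReal.ofReal (‖Φ.D (n j) v‖ ^ 2) +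
          2 * ENNReal.ofReal (‖Φ.D (-(n j : ℝ)) v‖ ^ 2))) + ENNReal.ofReal (2 * c ^ 2) := by
      intro v
      have h1 : (Real.sqrt (Q v) + c) ^ 2 ≤ (∑ j ∈ Finset.range (J + 1),
          (2 * ‖Φ.D (n j) v‖ ^ 2 + 2 * ‖Φ.D (-(n j : ℝ)) v‖ ^ 2)) + 2 * c ^ 2 := by
        have h2 := Real.sq_sqrt (hQ0 v)
        have h3 : (∑ j ∈ Finset.range (J + 1),
          (2 * ‖Φ.D (n j) v‖ ^ 2 + 2 * ‖Φ.D (-(n j : ℝ)) v‖ ^ 2)) = 2 * Q v := by
          rw [hQ]
          simp only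
          rw [Finset.mul_sum]
          exact Finset.sum_congr rfl fun j _ => by ring
        rw [h3]
        nlinarith [sq_nonneg (Real.sqrt (Q v) - c)]
      refine (ENNReal.ofReal_le_ofReal h1).trans ?_
      rw [ENNReal.ofReal_add (Finset.sum_nonneg fun j _ => by positivity) (by positivity),
        ENNReal.ofReal_sum_of_nonneg fun j _ => by positivity]
      gcongr with j hj
      rw [ENNReal.ofReal_add (by positivity) (by positivity), ENNReal.ofReal_mul (by norm_num),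
        ENNReal.ofReal_mul (by norm_num)]
      simp
    have hnT : ∀ j ∈ Finset.range (J + 1), (n j : ℝ) ≤ T := by
      intro j hj
      have h1 : (n j : ℝ) ≤ (j : ℝ) * T / J := Nat.floor_le (by positivity)
      refine h1.trans ?_
      rw [div_le_iff₀ hJ0]
      have h2 : (j : ℝ) ≤ J := by
        exact_mod_cast Nat.lt_succ_iff.1 (Finset.mem_range.1 hj)
      nlinarith
    set B : ℝ := ε' * T ^ 2 + C ^ 2 * N ^ 2 * μ with hB
    have hB0 : 0 ≤ B := by positivity
    calc ∫⁻ v in S.box, ENNReal.ofReal ((Real.sqrt (Q v) + c) ^ 2) ∂S.m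
        ≤ ∫⁻ v in S.box, ((∑ j ∈ Finset.range (J + 1),
          (2 * ENNReal.ofReal (‖Φ.D (n j) v‖ ^ 2) +
          2 * ENNReal.ofReal (‖Φ.D (-(n j : ℝ)) v‖ ^ 2))) + ENNReal.ofReal (2 * c ^ 2)) ∂S.m :=
          lintegral_mono hpt
      _ = (∑ j ∈ Finset.range (J + 1),
          (2 * ∫⁻ v in S.box, ENNReal.ofReal (‖Φ.D (n j) v‖ ^ 2) ∂S.m +
          2 * ∫⁻ v in S.box, ENNReal.ofReal (‖Φ.D (n j) v‖ ^ 2) ∂S.m)) +
          ENNReal.ofReal (2 * c ^ 2) * S.m S.box := by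
          rw [lintegral_add_right _ measurable_const, setLIntegral_const,
            lintegral_finset_sum (Finset.range (J + 1))
              (f := fun j v => 2 * ENNReal.ofReal (‖Φ.D (n j) v‖ ^ 2) +
                2 * ENNReal.ofReal (‖Φ.D (-(n j : ℝ)) v‖ ^ 2)) fun j _ =>
              ((M3_meas Φ _).const_mul 2).add ((M3_meas Φ _).const_mul 2)]
          congr 1
          refine Finset.sum_congr rfl fun j _ => ?_
          rw [lintegral_add_left ((M3_meas Φ _).const_mul 2),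
            lintegral_const_mul _ (M3_meas Φ _), lintegral_const_mul _ (M3_meas Φ _), M3_neg]
      _ ≤ (∑ j ∈ Finset.range (J + 1), (2 * ENNReal.ofReal B + 2 * ENNReal.ofReal B)) +
          ENNReal.ofReal (2 * c ^ 2) * ENNReal.ofReal μ := by
          rw [hμ']
          gcongr with j hj j hj
          · exact hone (n j) (hnT j hj)
          · exact hone (n j) (hnT j hj)
      _ = ENNReal.ofReal ((J + 1) * (4 * B) + 2 * c ^ 2 * μ) := by
          rw [Finset.sum_const, Finset.card_range, nsmul_eq_mul,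
            ENNReal.ofReal_add (p := ((J : ℝ) + 1) * (4 * B)) (q := 2 * c ^ 2 * μ)
              (by positivity) (by positivity),
            ENNReal.ofReal_mul (p := (J : ℝ) + 1) (q := 4 * B) (by positivity),
            ENNReal.ofReal_mul (p := 4) (q := B) (by norm_num),
            ENNReal.ofReal_mul (p := 2 * c ^ 2) (q := μ) (by positivity)]
          congr 2
          · rw [← Nat.cast_succ, ENNReal.ofReal_natCast]
          · rw [← add_mul, show ENNReal.ofReal 4 = 4 by simp]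
            norm_num
      _ ≤ ENNReal.ofReal (ε * T ^ 2) := by
          apply ENNReal.ofReal_le_ofReal
          have e1 : (J + 1) * (4 * (ε' * T ^ 2)) = ε * T ^ 2 / 4 := by
            rw [hε']; field_simp; ring
          have e2 : (J + 1) * (4 * (C ^ 2 * N ^ 2 * μ)) ≤ ε * T ^ 2 / 4 := by
            rw [div_le_iff₀ hε] at hTN
            nlinarith
          have e3 : 2 * c ^ 2 * μ ≤ ε * T ^ 2 / 2 := by
            have h1 : T / J + 1 ≤ 2 * T / J := by
              rw [le_div_iff₀ hJ0]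
              have : (T / J + 1) * J = T + J := by field_simp
              linarith
            have h2 : c ^ 2 ≤ C ^ 2 * (2 * T / J) ^ 2 := by
              rw [hc, mul_pow]
              gcongr
            have h3 : 16 * C ^ 2 * μ ≤ (J : ℝ) ^ 2 * ε := by
              rwa [div_le_iff₀ hε] at hJ
            calc 2 * c ^ 2 * μ ≤ 2 * (C ^ 2 * (2 * T / J) ^ 2) * μ := by gcongr
              _ = (16 * C ^ 2 * μ) * (T ^ 2 / (2 * J ^ 2)) := by field_simp; ring
              _ ≤ ((J : ℝ) ^ 2 * ε) * (T ^ 2 / (2 * J ^ 2)) := by gcongr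
              _ = ε * T ^ 2 / 2 := by field_simp
          rw [hB]
          nlinarith

end

end Pool.Agent.ET
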